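import Mathlib

/-!
Interface of the algebraic part of the non-symmetric Mahler project (helper455):
a purely combinatorial replacement of the Okounkov body reduction.
-/

namespace Pool.Agent.TH455.Mah

open Finset
open scoped Pointwise

/-- `nS A a` = the set of sums of `a` elements of `A` (with repetitions). -/
def nS {k : ℕ} (A : Finset (Fin k → ℤ)) : ℕ → Finset (Fin k → ℤ)
  | 0 => {0}
  | (a + 1) => nS A a + A

/-- `A` contains the origin and all vectors `± e_i`. -/
def Big {k : ℕ} (A : Finset (Fin k → ℤ)) : Prop :=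
  (0 : Fin k → ℤ) ∈ A ∧ ∀ i : Fin k, Pi.single i (1 : ℤ) ∈ A ∧ Pi.single i (-1 : ℤ) ∈ A

/-- The output of the algebraic part.  `G T` plays the role of the set of values of the flag
valuation on the Laurent polynomials with support in `T`. -/
structure Flag {k : ℕ} (A B : Finset (Fin k → ℤ)) (D c : ℕ)
    (G : Finset (Fin k → ℤ) → Set (Fin k → ℕ)) : Prop where
  pos : 0 < D
  mono : ∀ T T', T ⊆ T' → G T ⊆ G T'
  fin : ∀ T, (G T).Finite
  add : ∀ T T' α α', α ∈ G T → α' ∈ G T' → α + α' ∈ G (T + T')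
  simplex : ∀ (a : ℕ) (α : Fin k → ℕ), ∑ i, α i ≤ a → α ∈ G (nS A a)
  card_le : ∀ T, T.card ≤ D * (G T).ncard
  le_card : ∀ T, D * (G T).ncard ≤ (T + nS A c).card
  count : ∀ a b : ℕ, (nS A (c + a) + nS B b).card ≤
    ∑ j ∈ range (k + 1), (a + j - 1).choose j *
      (D * {α ∈ G (nS A c + nS B b) | ∀ i : Fin k, i.val < j → α i = 0}.ncard)

/-- The algebraic theorem. -/
def AlgStmt : Prop := ∀ (k : ℕ) (A B : Finset (Fin k → ℤ)), Big A → Big B →
  ∃ (D c : ℕ) (G : Finset (Fin k → ℤ) → Set (Fin k → ℕ)), Flag A B D c G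

end Pool.Agent.TH455.Mah
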